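import Pool.Agent.Q208.D.WeakDeltaDef

open Cardinal Set

universe u

namespace Q208.DeltaPrinciple

theorem exists_coding (κ : Cardinal.{u}) (hκ : ℵ₀ ≤ κ) :
    ∃ c : Ordinal.{u} → Ordinal.{u} → Ordinal.{u} → Ordinal.{u},
    (∀ j < κ.ord, ∀ α < (Order.succ κ).ord, ∀ ξ < α, c j α ξ < κ.ord) ∧
    (∀ j < κ.ord, ∀ j' < κ.ord, ∀ α < (Order.succ κ).ord, ∀ α' < (Order.succ κ).ord,
      ∀ ξ < α, ∀ ξ' < α', c j α ξ = c j' α' ξ' → j = j' ∧ (α = α' → ξ = ξ')) := by
  classical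
  have hK : #(Iio κ.ord) = Cardinal.lift.{u+1} κ := by
    rw [Cardinal.mk_Iio_ordinal, card_ord]
  have h1 : ∀ α : Iio (Order.succ κ).ord, Nonempty (Iio α.1 ↪ Iio κ.ord) := by
    rintro ⟨α, hα⟩
    rw [← Cardinal.le_def, hK, Cardinal.mk_Iio_ordinal, Cardinal.lift_le]
    exact Order.lt_succ_iff.1 (lt_ord.1 hα)
  have h2 : Nonempty (Iio κ.ord × Iio κ.ord ↪ Iio κ.ord) := by
    rw [← Cardinal.le_def, Cardinal.mk_prod, Cardinal.lift_id, hK, Cardinal.mul_eq_self]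
    rw [← Cardinal.lift_aleph0.{u+1,u}, Cardinal.lift_le]; exact hκ
  let e := fun α => (h1 α).some
  obtain ⟨π⟩ := h2
  refine ⟨fun j α ξ => if h : j < κ.ord ∧ α < (Order.succ κ).ord ∧ ξ < α then
    (π (⟨j, h.1⟩, e ⟨α, h.2.1⟩ ⟨ξ, h.2.2⟩)).1 else 0, ?_, ?_⟩
  · intro j hj α hα ξ hξ
    simp only [hj, hα, hξ, and_self, dif_pos]
    exact (π _).2
  · intro j hj j' hj' α hα α' hα' ξ hξ ξ' hξ'
    simp only [hj, hα, hξ, hj', hα', hξ', and_self, dif_pos]
    intro h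
    have h' := π.injective (Subtype.ext h)
    rw [Prod.ext_iff] at h'
    obtain ⟨ha, hb⟩ := h'
    refine ⟨congrArg Subtype.val ha, ?_⟩
    rintro rfl
    have := (e ⟨α, hα⟩).injective hb
    exact congrArg Subtype.val this

/-- the ordinal `sup (d '' i)` -/
noncomputable def sp (d : Ordinal.{u} → Ordinal.{u}) (i : Ordinal.{u}) : Ordinal.{u} :=
  sSup (d '' Iio i)

theorem le_sp (d : Ordinal.{u} → Ordinal.{u}) {i j : Ordinal.{u}} (h : j < i) : d j ≤ sp d i :=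
  le_csSup Ordinal.bddAbove_of_small ⟨j, h, rfl⟩

theorem lt_sp {d : Ordinal.{u} → Ordinal.{u}} {i ξ : Ordinal.{u}} (h : ξ < sp d i) :
    ∃ j < i, ξ < d j := by
  by_contra hc
  push Not at hc
  refine absurd h (not_lt.2 ?_)
  apply csSup_le'
  rintro _ ⟨j, hj, rfl⟩
  exact hc j hj

theorem sp_lt (κ : Cardinal.{u}) (hκ : ℵ₀ ≤ κ) {d : Ordinal.{u} → Ordinal.{u}} {i : Ordinal.{u}}
    (hi : i < (Order.succ κ).ord) (h : ∀ j < i, d j < (Order.succ κ).ord) :
    sp d i < (Order.succ κ).ord := by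
  apply Ordinal.sSup_lt_of_lt_cof
  · refine Cardinal.mk_image_le.trans_lt ?_
    rw [Cardinal.mk_Iio_ordinal, ← Ordinal.lift_cof, (isRegular_succ hκ).cof_ord, Cardinal.lift_lt]
    exact lt_ord.1 hi
  · rintro _ ⟨j, hj, rfl⟩
    exact h j hj

theorem sp_congr {d d' : Ordinal.{u} → Ordinal.{u}} {i : Ordinal.{u}}
    (h : ∀ j < i, d j = d' j) : sp d i = sp d' i := by
  unfold sp
  congr 1
  apply Set.image_congr
  intro j hj
  exact h j hj

/-- first index -/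
noncomputable def ix (d : Ordinal.{u} → Ordinal.{u}) (ξ : Ordinal.{u}) : Ordinal.{u} :=
  sInf {j | ξ < d j}

theorem lt_ix {d : Ordinal.{u} → Ordinal.{u}} {ξ j : Ordinal.{u}} (h : ξ < d j) :
    ξ < d (ix d ξ) := csInf_mem (s := {j | ξ < d j}) ⟨j, h⟩

theorem ix_le {d : Ordinal.{u} → Ordinal.{u}} {ξ j : Ordinal.{u}} (h : ξ < d j) :
    ix d ξ ≤ j := csInf_le' h

theorem ix_congr {d d' : Ordinal.{u} → Ordinal.{u}} {i j ξ : Ordinal.{u}}
    (h : ∀ j < i, d j = d' j) (hj : j < i) (hξ : ξ < d j) : ix d ξ = ix d' ξ := by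
  have h1 := ix_le hξ
  have h2 := lt_ix hξ
  have hξ' : ξ < d' j := by rw [← h j hj]; exact hξ
  have h1' := ix_le hξ'
  have h2' := lt_ix hξ'
  apply le_antisymm
  · apply ix_le; rw [h _ (h1'.trans_lt hj)]; exact h2'
  · apply ix_le; rw [← h _ (h1.trans_lt hj)]; exact h2

variable (c : Ordinal.{u} → Ordinal.{u} → Ordinal.{u} → Ordinal.{u})

/-- the glued function -/
noncomputable def G (d : Ordinal.{u} → Ordinal.{u}) (ξ : Ordinal.{u}) : Ordinal.{u} :=
  c (ix d ξ) (d (ix d ξ)) ξ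

theorem G_congr {d d' : Ordinal.{u} → Ordinal.{u}} {i j ξ : Ordinal.{u}}
    (h : ∀ j < i, d j = d' j) (hj : j < i) (hξ : ξ < d j) : G c d ξ = G c d' ξ := by
  unfold G
  rw [← ix_congr h hj hξ, h _ ((ix_le hξ).trans_lt hj)]

/-- truncation -/
noncomputable def tr (d : Ordinal.{u} → Ordinal.{u}) (i j : Ordinal.{u}) : Ordinal.{u} :=
  open Classical in if j < i then d j else 0

variable (η : Ordinal.{u} → (Ordinal.{u} → Ordinal.{u}) → Ordinal.{u})

/-- one step -/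
noncomputable def step (d : Ordinal.{u} → Ordinal.{u}) (i : Ordinal.{u}) : Ordinal.{u} :=
  max (sp d i + 1) (η (sp d i) (G c (tr d i)))

theorem step_congr {d d' : Ordinal.{u} → Ordinal.{u}} {i : Ordinal.{u}}
    (h : ∀ j < i, d j = d' j) : step c η d i = step c η d' i := by
  have : tr d i = tr d' i := by
    funext j
    unfold tr
    split_ifs with hj
    · exact h j hj
    · rfl
  unfold step
  rw [this, sp_congr h]

theorem exists_rec : ∃ d : Ordinal.{u} → Ordinal.{u}, ∀ i, d i = step c η d i := by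
  classical
  let F : (i : Ordinal.{u}) → ((j : Ordinal.{u}) → j < i → Ordinal.{u}) → Ordinal.{u} :=
    fun i d => step c η (fun j => if h : j < i then d j h else 0) i
  let d : Ordinal.{u} → Ordinal.{u} := (Ordinal.lt_wf.{u}).fix F
  refine ⟨d, fun i => ?_⟩
  have : d i = F i (fun j _ => d j) := (Ordinal.lt_wf.{u}).fix_eq F i
  rw [this]
  apply step_congr
  intro j hj
  simp [hj]

variable {κ : Cardinal.{u}}

/-- `f` of domain at least `η` agrees with `g ↾ γ` on `D f ∩ η` -/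
def Good (D : (f : Inj κ) → Set (Iio f.dom)) (γ : Ordinal.{u}) (g : Ordinal.{u} → Ordinal.{u})
    (η : Ordinal.{u}) : Prop :=
  ∃ f : Inj κ, η ≤ f.dom ∧ ∀ ξ ∈ D f, ξ.1 < η → ξ.1 < γ ∧ (f.toFun ξ).1 = g ξ.1

theorem exists_regular (hκ : ℵ₀ ≤ κ) {μ : Cardinal.{u}} (h : μ < κ) :
    ∃ ν : Cardinal.{u}, ν.IsRegular ∧ μ < ν ∧ ν ≤ κ := by
  by_cases hr : κ.IsRegular
  · exact ⟨κ, hr, h, le_rfl⟩
  · refine ⟨Order.succ (max μ ℵ₀), isRegular_succ (le_max_right _ _),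
      (le_max_left _ _).trans_lt (Order.lt_succ _), ?_⟩
    rw [Order.succ_le_iff]
    refine max_lt h (lt_of_le_of_ne hκ ?_)
    rintro rfl
    exact hr isRegular_aleph0

theorem key (hκ : ℵ₀ ≤ κ) (D : (f : Inj κ) → Set (Iio f.dom))
    (hD : ∀ f, #(D f) < Cardinal.lift.{u + 1} κ) :
    ∃ γ < (Order.succ κ).ord, ∃ g, ∀ η < (Order.succ κ).ord, Good D γ g η := by
  by_contra hcon
  push Not at hcon
  choose! η hη hG using hcon
  obtain ⟨c, hc1, hc2⟩ := exists_coding κ hκ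
  obtain ⟨d, hd⟩ := exists_rec c η
  have hκs : κ.ord < (Order.succ κ).ord := ord_lt_ord.2 (Order.lt_succ κ)
  have hlim : ∀ a < (Order.succ κ).ord, a + 1 < (Order.succ κ).ord := by
    intro a ha
    exact (isSuccLimit_ord (hκ.trans (Order.le_succ κ))).add_one_lt ha
  have hdlt : ∀ i < κ.ord, d i < (Order.succ κ).ord := by
    intro i
    induction i using WellFoundedLT.induction with
    | ind i ih =>
      intro hi
      have hs := sp_lt κ hκ (hi.trans hκs) (fun j hj => ih j hj (hj.trans hi))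
      rw [hd i]
      exact max_lt (hlim _ hs) (hη _ hs _)
  have hsp : ∀ i, sp d i < d i := by
    intro i
    rw [hd i]
    exact (lt_add_one _).trans_le (le_max_left _ _)
  have hmono : ∀ i j, j < i → d j < d i := fun i j h => (le_sp d h).trans_lt (hsp i)
  have hmono' : ∀ i j, j ≤ i → d j ≤ d i := by
    intro i j h
    rcases h.eq_or_lt with rfl | h
    · exact le_rfl
    · exact (hmono i j h).le
  -- the limit function
  have hδ : sp d κ.ord < (Order.succ κ).ord := sp_lt κ hκ hκs hdlt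
  have hix : ∀ ξ < sp d κ.ord, ix d ξ < κ.ord ∧ ξ < d (ix d ξ) := by
    intro ξ hξ
    obtain ⟨j, hj, hj'⟩ := lt_sp hξ
    exact ⟨(ix_le hj').trans_lt hj, lt_ix hj'⟩
  let f : Inj κ :=
    { dom := sp d κ.ord
      dom_lt := hδ
      toFun := fun ξ => ⟨G c d ξ.1, hc1 _ (hix _ ξ.2).1 _ (hdlt _ (hix _ ξ.2).1) _ (hix _ ξ.2).2⟩
      injective := by
        intro ξ ξ' h
        have h' : G c d ξ.1 = G c d ξ'.1 := congrArg Subtype.val h
        have := hc2 _ (hix _ ξ.2).1 _ (hix _ ξ'.2).1 _ (hdlt _ (hix _ ξ.2).1) _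
          (hdlt _ (hix _ ξ'.2).1) _ (hix _ ξ.2).2 _ (hix _ ξ'.2).2 h'
        exact Subtype.ext (this.2 (by rw [this.1])) }
  -- the regular cardinal
  obtain ⟨μ, hμ⟩ : ∃ μ : Cardinal.{u}, #(D f) = Cardinal.lift.{u+1} μ := by
    obtain ⟨μ, hμ⟩ := Cardinal.mem_range_lift_of_le (hD f).le
    exact ⟨μ, hμ.symm⟩
  have hμκ : μ < κ := by
    have := hD f
    rw [hμ, Cardinal.lift_lt] at this
    exact this
  obtain ⟨ν, hν, hμν, hνκ⟩ := exists_regular hκ hμκ
  have hνκ' : ν.ord ≤ κ.ord := ord_le_ord.2 hνκ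
  let S : Set Ordinal.{u} := (fun ξ : Iio f.dom => ix d ξ.1 + 1) '' {ξ ∈ D f | ξ.1 < sp d ν.ord}
  have hS : sSup S < ν.ord := by
    apply Ordinal.sSup_lt_of_lt_cof
    · refine Cardinal.mk_image_le.trans_lt ?_
      rw [← Ordinal.lift_cof, hν.cof_ord]
      refine (Cardinal.mk_le_mk_of_subset (sep_subset _ _)).trans_lt ?_
      rw [hμ, Cardinal.lift_lt]
      exact hμν
    · rintro _ ⟨ξ, ⟨_, hξ⟩, rfl⟩
      obtain ⟨j, hj, hj'⟩ := lt_sp hξ
      exact (isSuccLimit_ord hν.aleph0_le).add_one_lt ((ix_le hj').trans_lt hj)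
  set i := sSup S with hi
  have hiκ : i < κ.ord := hS.trans_le hνκ'
  have hspi : sp d i < (Order.succ κ).ord := (hsp i).trans (hdlt i hiκ)
  apply hG (sp d i) hspi (G c (tr d i))
  have hle : η (sp d i) (G c (tr d i)) ≤ d i := by
    rw [hd i]; exact le_max_right _ _
  refine ⟨f, hle.trans (le_sp d hiκ), ?_⟩
  intro ξ hξ hlt
  have h1 : ξ.1 < d i := hlt.trans_le hle
  have h2 : ξ.1 < sp d ν.ord := h1.trans_le (le_sp d hS)
  have h3 : ix d ξ.1 + 1 ≤ i := le_csSup Ordinal.bddAbove_of_small ⟨ξ, ⟨hξ, h2⟩, rfl⟩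
  have h4 : ix d ξ.1 < i := Order.add_one_le_iff.1 h3
  have h5 : ξ.1 < d (ix d ξ.1) := lt_ix h1
  refine ⟨h5.trans_le (le_sp d h4), ?_⟩
  change G c d ξ.1 = _
  apply G_congr c (i := i) _ h4 h5
  intro j hj
  simp [tr, hj]

theorem weakDelta (hκ : ℵ₀ ≤ κ) : WeakDelta κ := by
  intro D hD
  obtain ⟨γ, hγ, g, hg⟩ := key hκ D hD
  have hg' : ∀ η : Ordinal.{u}, ∃ f : Inj κ, η < (Order.succ κ).ord → η ≤ f.dom ∧
      ∀ ξ ∈ D f, ξ.1 < η → ξ.1 < γ ∧ (f.toFun ξ).1 = g ξ.1 := by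
    intro η
    by_cases h : η < (Order.succ κ).ord
    · obtain ⟨f, hf⟩ := hg η h
      exact ⟨f, fun _ => hf⟩
    · obtain ⟨f, hf⟩ := hg γ hγ
      exact ⟨f, fun h' => absurd h' h⟩
  choose φ hφ using hg'
  have hlim : ∀ a < (Order.succ κ).ord, a + 1 < (Order.succ κ).ord := by
    intro a ha
    exact (isSuccLimit_ord (hκ.trans (Order.le_succ κ))).add_one_lt ha
  -- indices
  classical
  let F : (i : Ordinal.{u}) → ((j : Ordinal.{u}) → j < i → Ordinal.{u}) → Ordinal.{u} :=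
    fun i d => max γ (sp (fun j => if h : j < i then (φ (d j h)).dom + 1 else 0) i)
  let d : Ordinal.{u} → Ordinal.{u} := (Ordinal.lt_wf.{u}).fix F
  have hd : ∀ i, d i = max γ (sp (fun j => (φ (d j)).dom + 1) i) := by
    intro i
    have : d i = F i (fun j _ => d j) := (Ordinal.lt_wf.{u}).fix_eq F i
    rw [this]
    change max γ _ = _
    congr 1
    apply sp_congr
    intro j hj
    simp [hj]
  have hdlt : ∀ i < (Order.succ κ).ord, d i < (Order.succ κ).ord := by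
    intro i
    induction i using WellFoundedLT.induction with
    | ind i ih =>
      intro hi
      rw [hd i]
      exact max_lt hγ (sp_lt κ hκ hi (fun j hj => hlim _ (φ (d j)).dom_lt))
  have hdj : ∀ i j, j < i → (φ (d j)).dom < d i := by
    intro i j h
    rw [hd i]
    exact (lt_add_one _).trans_le ((le_sp (fun j => (φ (d j)).dom + 1) h).trans (le_max_right _ _))
  have hγd : ∀ i, γ ≤ d i := by
    intro i
    rw [hd i]
    exact le_max_left _ _
  refine ⟨fun α => φ (d α.1), ?_, ?_⟩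
  · intro α β h
    have h1 : (φ (d α.1)).dom < (φ (d β.1)).dom :=
      (hdj _ _ h).trans_le (hφ (d β.1) (hdlt _ β.2)).1
    exact Iio_ssubset_Iio h1
  · -- compatibility of two members
    have hco : ∀ α β : Iio (Order.succ κ).ord, α < β → ∀ ξ a b,
        (ξ, a) ∈ (φ (d α.1)).restrict (D (φ (d α.1))) →
        (ξ, b) ∈ (φ (d β.1)).restrict (D (φ (d β.1))) → a = b := by
      intro α β h ξ a b ha hb
      obtain ⟨x, hx, hxe⟩ := ha
      obtain ⟨y, hy, hye⟩ := hb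
      rw [Prod.ext_iff] at hxe hye
      obtain ⟨hx1, hx2⟩ := hxe
      obtain ⟨hy1, hy2⟩ := hye
      simp only at hx1 hx2 hy1 hy2
      have h1 : y.1 < d β.1 := by
        rw [← hy1, hx1]
        exact x.2.trans (hdj _ _ h)
      obtain ⟨h2, h3⟩ := (hφ (d β.1) (hdlt _ β.2)).2 y hy h1
      have h4 : x.1 < d α.1 := by
        rw [← hx1, hy1]
        exact h2.trans_le (hγd _)
      obtain ⟨h5, h6⟩ := (hφ (d α.1) (hdlt _ α.2)).2 x hx h4
      rw [hx2, hy2, h3, h6, ← hx1, hy1]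
    intro ξ a b ha hb
    rw [mem_iUnion] at ha hb
    obtain ⟨α, ha⟩ := ha
    obtain ⟨β, hb⟩ := hb
    rcases lt_trichotomy α β with h | h | h
    · exact hco α β h ξ a b ha hb
    · subst h
      obtain ⟨x, hx, hxe⟩ := ha
      obtain ⟨y, hy, hye⟩ := hb
      rw [Prod.ext_iff] at hxe hye
      obtain ⟨hx1, hx2⟩ := hxe
      obtain ⟨hy1, hy2⟩ := hye
      simp only at hx1 hx2 hy1 hy2
      have : x = y := Subtype.ext (by rw [← hx1, hy1])
      rw [hx2, hy2, this]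
    · exact (hco β α h ξ b a hb ha).symm

theorem lt_powerlt_self (hκ : ℵ₀ ≤ κ) (h : ¬ κ.IsRegular) : κ < κ ^< κ := by
  have h1 : κ.ord.cof < κ := by
    by_contra hc
    exact h ⟨hκ, not_lt.1 hc⟩
  exact (lt_power_cof_ord hκ).trans_le (le_powerlt κ h1)

end Q208.DeltaPrinciple
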