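import Mathlib

/-!
# The weak Delta-system principle `Δ(κ)`: definitions
-/

open Cardinal Set

universe u

namespace Q208.DeltaPrinciple

/-- An element of `I(κ)`: an injective function from an ordinal `dom < κ⁺` into (the set of ordinals
below) the cardinal `κ`. -/
structure Inj (κ : Cardinal.{u}) where
  /-- the domain, an ordinal -/
  dom : Ordinal.{u}
  /-- the domain is smaller than `κ⁺` -/
  dom_lt : dom < (Order.succ κ).ord
  /-- the function from the ordinals below `dom` to the ordinals below `κ` -/
  toFun : Iio dom → Iio κ.ord
  /-- the function is injective -/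
  injective : Function.Injective toFun

/-- The restriction `f ↾ A`, for `A ⊆ dom f`, as a set of ordered pairs of ordinals. -/
def Inj.restrict {κ : Cardinal.{u}} (f : Inj κ) (A : Set (Iio f.dom)) :
    Set (Ordinal.{u} × Ordinal.{u}) :=
  {p | ∃ ξ ∈ A, p = (ξ.1, (f.toFun ξ).1)}

/-- A set of ordered pairs is a function if it is single-valued. -/
def IsFunction (R : Set (Ordinal.{u} × Ordinal.{u})) : Prop :=
  ∀ ξ a b, (ξ, a) ∈ R → (ξ, b) ∈ R → a = b

/-- The principle `Δ(κ)`: for every map `D` on `I(κ)` such that `D f` is a subset of `dom f` of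
cardinality smaller than `κ`, there is a sequence `F` of length `κ⁺` of elements of `I(κ)` whose
domains are strictly increasing and such that the union of the restrictions of `F α` to `D (F α)`
is a function. -/
def WeakDelta (κ : Cardinal.{u}) : Prop :=
  ∀ D : (f : Inj κ) → Set (Iio f.dom), (∀ f, #(D f) < Cardinal.lift.{u + 1} κ) →
    ∃ F : Iio (Order.succ κ).ord → Inj κ,
      (∀ α β, α < β → Iio (F α).dom ⊂ Iio (F β).dom) ∧
      IsFunction (⋃ α, (F α).restrict (D (F α)))

end Q208.DeltaPrinciple
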